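import Mathlib

/-!
# The number of monomials of a polynomial identity of the upper triangular matrices

If a noncommutative polynomial vanishes on the upper triangular `n × n` matrices over an infinite
field, then every word occurring in it has at least `2 ^ n` rearrangements occurring in it.
-/

set_option autoImplicit false

namespace Pool.Agent.V11298.NCM

open Finset

variable {K : Type*} [Field K] {σ : Type*}

/-- the value of the polynomial with the coefficients `F` -/
noncomputable def ev {A : Type*} [Ring A] [Algebra K A] (X : σ → A) (F : List σ →₀ K) : A :=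
  F.sum fun w c => c • (w.map X).prod

/-- `F` vanishes on the upper triangular matrices -/
def Van (n : ℕ) (F : List σ →₀ K) : Prop :=
  ∀ X : σ → Matrix (Fin n) (Fin n) K, (∀ s i j, j < i → X s i j = 0) → ev X F = 0

/-- the numbers of the occurrences of the letters -/
noncomputable def cont (p : List σ) : σ →₀ ℕ := (p.map fun y => Finsupp.single y 1).sum

theorem cont_nil : cont ([] : List σ) = 0 := rfl

theorem cont_cons (y : σ) (p : List σ) : cont (y :: p) = Finsupp.single y 1 + cont p := by
  simp [cont]

theorem cont_append (p q : List σ) : cont (p ++ q) = cont p + cont q := by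
  simp [cont]

theorem cont_apply [DecidableEq σ] (p : List σ) (y : σ) : cont p y = p.count y := by
  induction p with
  | nil => simp [cont_nil]
  | cons a p ih =>
    rw [cont_cons, Finsupp.add_apply, ih, List.count_cons, add_comm, Finsupp.single_apply]
    simp [beq_iff_eq]

theorem cont_eq_iff (p q : List σ) : cont p = cont q ↔ p.Perm q := by
  classical
  rw [List.perm_iff_count]
  constructor
  · intro h a
    rw [← cont_apply, ← cont_apply, h]
  · intro h
    ext a
    rw [cont_apply, cont_apply, h a]

/-- the matrix with the blocks `a`, `b`, `C` -/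
def blk {n : ℕ} (a : K) (b : Fin n → K) (C : Matrix (Fin n) (Fin n) K) :
    Matrix (Fin (n + 1)) (Fin (n + 1)) K :=
  fun i j => Fin.cases (Fin.cases a b j) (fun i' => Fin.cases 0 (fun j' => C i' j') j) i

theorem blk_zero_zero {n : ℕ} (a : K) (b : Fin n → K) (C : Matrix (Fin n) (Fin n) K) :
    blk a b C 0 0 = a := rfl

theorem blk_zero_succ {n : ℕ} (a : K) (b : Fin n → K) (C : Matrix (Fin n) (Fin n) K) (j : Fin n) :
    blk a b C 0 j.succ = b j := rfl

theorem blk_succ_zero {n : ℕ} (a : K) (b : Fin n → K) (C : Matrix (Fin n) (Fin n) K) (i : Fin n) :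
    blk a b C i.succ 0 = 0 := rfl

theorem blk_succ_succ {n : ℕ} (a : K) (b : Fin n → K) (C : Matrix (Fin n) (Fin n) K)
    (i j : Fin n) : blk a b C i.succ j.succ = C i j := rfl

/-- the upper right block of a product -/
def row {n : ℕ} (a : σ → K) (b : σ → Fin n → K) (C : σ → Matrix (Fin n) (Fin n) K) :
    List σ → Fin n → K
  | [], _ => 0
  | y :: w, j => (∑ k, b y k * (w.map C).prod k j) + a y * row a b C w j

theorem prod_blk {n : ℕ} (a : σ → K) (b : σ → Fin n → K) (C : σ → Matrix (Fin n) (Fin n) K)
    (w : List σ) : (w.map fun s => blk (a s) (b s) (C s)).prod =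
      blk (w.map a).prod (row a b C w) (w.map C).prod := by
  induction w with
  | nil =>
    ext i j
    simp only [List.map_nil, List.prod_nil]
    induction i using Fin.cases with
    | zero =>
      induction j using Fin.cases with
      | zero => simp [blk_zero_zero]
      | succ j => simp [blk_zero_succ, row, Fin.ext_iff]
    | succ i =>
      induction j using Fin.cases with
      | zero => simp [blk_succ_zero, Fin.ext_iff]
      | succ j => simp [blk_succ_succ, Matrix.one_apply]
  | cons y w ih =>
    rw [List.map_cons, List.prod_cons, ih]
    ext i j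
    rw [Matrix.mul_apply, Fin.sum_univ_succ]
    induction i using Fin.cases with
    | zero =>
      induction j using Fin.cases with
      | zero => simp [blk_zero_zero, blk_zero_succ, blk_succ_zero]
      | succ j =>
        simp only [blk_zero_zero, blk_zero_succ, blk_succ_succ, row]
        rw [add_comm]
    | succ i =>
      induction j using Fin.cases with
      | zero => simp [blk_succ_zero, blk_zero_zero]
      | succ j =>
        simp only [blk_succ_zero, blk_succ_succ, zero_mul, zero_add, List.map_cons, List.prod_cons,
          Matrix.mul_apply]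

/-- the part after the prefix with the content `α` and the letter `x` -/
noncomputable def cut (x : σ) : (σ →₀ ℕ) → List σ → Option (List σ)
  | _, [] => none
  | α, y :: w => by
    classical
    exact if α = 0 then (if y = x then some w else none)
      else if α y = 0 then none else cut x (α - Finsupp.single y 1) w

theorem cut_nil (x : σ) (α : σ →₀ ℕ) : cut x α [] = none := by
  rw [cut]

theorem cut_cons (x : σ) (α : σ →₀ ℕ) (y : σ) (w : List σ) [Decidable (α = 0)]
    [Decidable (y = x)] : cut x α (y :: w) =
      if α = 0 then (if y = x then some w else none)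
      else if α y = 0 then none else cut x (α - Finsupp.single y 1) w := by
  rw [cut]
  split_ifs <;> rfl

theorem cut_append (x : σ) (p v : List σ) : cut x (cont p) (p ++ x :: v) = some v := by
  classical
  induction p with
  | nil => rw [cont_nil, List.nil_append, cut_cons, if_pos rfl, if_pos rfl]
  | cons y p ih =>
    have h1 : cont (y :: p) y ≠ 0 := by
      rw [cont_cons, Finsupp.add_apply, Finsupp.single_eq_same]
      omega
    have h2 : cont (y :: p) ≠ 0 := fun h => h1 (by rw [h]; rfl)
    rw [List.cons_append, cut_cons, if_neg h2, if_neg h1, cont_cons, add_tsub_cancel_left, ih]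

theorem cut_eq (x : σ) (α : σ →₀ ℕ) (w v : List σ) (h : cut x α w = some v) :
    ∃ u, w = u ++ x :: v ∧ cont u = α := by
  classical
  induction w generalizing α with
  | nil => rw [cut_nil] at h; exact absurd h (by simp)
  | cons y w ih =>
    rw [cut_cons] at h
    split_ifs at h with h1 h2 h3
    · refine ⟨[], ?_, by rw [cont_nil, h1]⟩
      rw [List.nil_append, h2]
      simpa using h
    · obtain ⟨u, h4, h5⟩ := ih _ h
      refine ⟨y :: u, by rw [h4]; rfl, ?_⟩
      rw [cont_cons, h5]
      rw [add_tsub_cancel_of_le]
      rw [Finsupp.single_le_iff]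
      omega

/-- the polynomials in the diagonal entries -/
noncomputable def pol {n : ℕ} (x : σ) (k j : Fin n) (C : σ → Matrix (Fin n) (Fin n) K) :
    List σ → MvPolynomial σ K
  | [] => 0
  | y :: w => by
    classical
    exact (if y = x then MvPolynomial.C ((w.map C).prod k j) else 0) +
      MvPolynomial.X y * pol x k j C w

theorem eval_pol {n : ℕ} (x : σ) (k j : Fin n) (C : σ → Matrix (Fin n) (Fin n) K) (a : σ → K)
    (w : List σ) [DecidableEq σ] : MvPolynomial.eval a (pol x k j C w) =
      row a (fun y k' => if y = x ∧ k' = k then 1 else 0) C w j := by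
  induction w with
  | nil => simp [pol, row]
  | cons y w ih =>
    rw [pol, row, map_add, map_mul, ih, MvPolynomial.eval_X]
    congr 1
    by_cases h : y = x
    · simp [h]
    · simp [h]

theorem coeff_pol {n : ℕ} (x : σ) (k j : Fin n) (C : σ → Matrix (Fin n) (Fin n) K)
    (w : List σ) (α : σ →₀ ℕ) : MvPolynomial.coeff α (pol x k j C w) =
      (match cut x α w with
        | some v => (v.map C).prod k j
        | none => 0) := by
  classical
  induction w generalizing α with
  | nil => simp [pol, cut_nil]
  | cons y w ih =>
    rw [pol, cut_cons, MvPolynomial.coeff_add, MvPolynomial.coeff_X_mul']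
    by_cases h0 : α = 0
    · subst h0
      by_cases h1 : y = x
      · simp [h1]
      · simp [h1]
    · rw [if_neg h0]
      have h2 : MvPolynomial.coeff α (if y = x then MvPolynomial.C ((w.map C).prod k j) else
          (0 : MvPolynomial σ K)) = 0 := by
        split_ifs
        · rw [MvPolynomial.coeff_C, if_neg (fun h => h0 h.symm)]
        · simp
      rw [h2, zero_add]
      by_cases h1 : α y = 0
      · rw [if_pos h1, if_neg (by simpa using h1)]
      · rw [if_neg h1, if_pos (by simpa using h1), ih]

/-- the polynomial formed by the parts after a prefix with given content and a given letter -/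
noncomputable def par (x : σ) (α : σ →₀ ℕ) (F : List σ →₀ K) : List σ →₀ K :=
  F.sum fun w c => match cut x α w with
    | some v => Finsupp.single v c
    | none => 0

theorem par_apply (x : σ) (α : σ →₀ ℕ) (F : List σ →₀ K) (v : List σ) [DecidableEq σ] :
    par x α F v = ∑ w ∈ F.support, if cut x α w = some v then F w else 0 := by
  rw [par, Finsupp.sum, Finsupp.finsetSum_apply]
  refine Finset.sum_congr rfl fun w _ => ?_
  cases h : cut x α w with
  | none => simp
  | some v' =>
    rw [Finsupp.single_apply]
    simp

theorem ev_par {n : ℕ} (x : σ) (α : σ →₀ ℕ) (F : List σ →₀ K) (C : σ → Matrix (Fin n) (Fin n) K)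
    (k j : Fin n) : ev C (par x α F) k j = MvPolynomial.coeff α
      (∑ w ∈ F.support, MvPolynomial.C (F w) * pol x k j C w) := by
  classical
  rw [ev, par, Finsupp.sum_sum_index (by simp) (by intros; rw [add_smul]), Finsupp.sum,
    Matrix.sum_apply, MvPolynomial.coeff_sum]
  refine Finset.sum_congr rfl fun w _ => ?_
  rw [MvPolynomial.coeff_C_mul, coeff_pol]
  cases h : cut x α w with
  | none => simp
  | some v => simp

variable [Infinite K]

theorem van_par {n : ℕ} (F : List σ →₀ K) (h : Van (n + 1) F) (x : σ) (α : σ →₀ ℕ) :
    Van n (par x α F) := by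
  classical
  intro C hC
  ext k j
  rw [ev_par, Matrix.zero_apply]
  have h0 : (∑ w ∈ F.support, MvPolynomial.C (F w) * pol x k j C w) = 0 := by
    apply MvPolynomial.funext
    intro a
    rw [map_zero, map_sum]
    have h1 := h (fun s => blk (a s) (fun k' => if s = x ∧ k' = k then 1 else 0) (C s)) (by
      intro s i i' hi
      induction i using Fin.cases with
      | zero => exact absurd hi (Fin.not_lt_zero _)
      | succ i =>
        induction i' using Fin.cases with
        | zero => rfl
        | succ i' =>
          rw [blk_succ_succ]
          exact hC s i i' (by simpa using hi))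
    have h2 := congrFun (congrFun h1 0) j.succ
    rw [ev, Finsupp.sum, Matrix.sum_apply, Matrix.zero_apply] at h2
    refine Eq.trans (Finset.sum_congr rfl fun w _ => ?_) h2
    rw [Matrix.smul_apply, prod_blk, blk_zero_succ, map_mul, MvPolynomial.eval_C, eval_pol,
      smul_eq_mul]
  rw [h0, MvPolynomial.coeff_zero]

omit [Infinite K] in
theorem prod_map_pow (a : σ → K) (w : List σ) :
    (w.map a).prod = MvPolynomial.eval a (MvPolynomial.monomial (cont w) 1) := by
  induction w with
  | nil => simp [cont_nil]
  | cons y w ih =>
    rw [List.map_cons, List.prod_cons, ih, cont_cons]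
    rw [show (MvPolynomial.monomial (Finsupp.single y 1 + cont w) (1 : K)) =
      MvPolynomial.monomial (Finsupp.single y 1) 1 * MvPolynomial.monomial (cont w) 1 by
        rw [MvPolynomial.monomial_mul, one_mul], map_mul]
    congr 1
    simp [MvPolynomial.eval_monomial]

/-- the sum of the coefficients of a class of rearrangements is zero -/
theorem sum_class {n : ℕ} (F : List σ →₀ K) (h : Van (n + 1) F) (α : σ →₀ ℕ) [DecidableEq σ] :
    ∑ w ∈ F.support, (if cont w = α then F w else 0) = 0 := by
  have h0 : (∑ w ∈ F.support, MvPolynomial.monomial (cont w) (F w)) = 0 := by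
    apply MvPolynomial.funext
    intro a
    rw [map_zero, map_sum]
    have h1 := h (fun s => blk (a s) 0 0) (by
      intro s i i' hi
      induction i using Fin.cases with
      | zero => exact absurd hi (Fin.not_lt_zero _)
      | succ i =>
        induction i' using Fin.cases with
        | zero => rfl
        | succ i' => rfl)
    have h2 := congrFun (congrFun h1 0) 0
    rw [ev, Finsupp.sum, Matrix.sum_apply, Matrix.zero_apply] at h2
    refine Eq.trans (Finset.sum_congr rfl fun w _ => ?_) h2
    rw [Matrix.smul_apply, prod_blk a (fun _ => 0) (fun _ => 0) w, blk_zero_zero, prod_map_pow,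
      smul_eq_mul]
    rw [← MvPolynomial.eval_C (f := a) (a := F w), ← map_mul, MvPolynomial.C_mul_monomial, mul_one,
      MvPolynomial.eval_C]
  have h3 := congrArg (MvPolynomial.coeff α) h0
  rw [MvPolynomial.coeff_zero, MvPolynomial.coeff_sum] at h3
  refine Eq.trans (Finset.sum_congr rfl fun w _ => ?_) h3
  rw [MvPolynomial.coeff_monomial]

/-- a finite set of at least two words of the same length branches -/
theorem branch (A : Finset (List σ)) (w w' : List σ) (hw : w ∈ A) (hw' : w' ∈ A) (hne : w ≠ w')
    (hlen : ∀ u ∈ A, u.length = w.length) :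
    ∃ (p : List σ) (x y : σ) (v v' : List σ), x ≠ y ∧ p ++ x :: v ∈ A ∧ p ++ y :: v' ∈ A ∧
      ∀ u ∈ A, u.take p.length = p := by
  classical
  have hex : ∃ k, ¬ ∀ u ∈ A, u.take k = w.take k := by
    refine ⟨w.length, fun h => hne ?_⟩
    have h1 := h w' hw'
    rw [List.take_length, ← hlen w' hw', List.take_length] at h1
    exact h1.symm
  obtain ⟨k, hk, hmin⟩ : ∃ k, (¬ ∀ u ∈ A, u.take k = w.take k) ∧
      ∀ m < k, ∀ u ∈ A, u.take m = w.take m := by
    refine ⟨Nat.find hex, Nat.find_spec hex, fun m hm => ?_⟩
    exact not_not.1 (Nat.find_min hex hm)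
  obtain ⟨m, rfl⟩ : ∃ m, k = m + 1 := by
    cases k with
    | zero => exact absurd (fun u _ => by simp) hk
    | succ m => exact ⟨m, rfl⟩
  push Not at hk
  obtain ⟨u, hu, hne2⟩ := hk
  have hm := hmin m (Nat.lt_succ_self m)
  have hmlt : m < w.length := by
    by_contra hcon
    rw [not_lt] at hcon
    apply hne2
    have h1 := hm u hu
    rw [List.take_of_length_le (by rw [hlen u hu]; exact hcon), List.take_of_length_le hcon] at h1
    rw [h1]
  have hmlt2 : m < u.length := by rw [hlen u hu]; exact hmlt
  have e1 : w = w.take m ++ w[m] :: w.drop (m + 1) := by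
    rw [← List.drop_eq_getElem_cons hmlt, List.take_append_drop]
  have e2 : u = w.take m ++ u[m] :: u.drop (m + 1) := by
    rw [← hm u hu, ← List.drop_eq_getElem_cons hmlt2, List.take_append_drop]
  refine ⟨w.take m, w[m], u[m], w.drop (m + 1), u.drop (m + 1), ?_, ?_, ?_, ?_⟩
  · intro he
    apply hne2
    rw [List.take_add_one, List.take_add_one, hm u hu, List.getElem?_eq_getElem hmlt,
      List.getElem?_eq_getElem hmlt2, he]
  · rw [← e1]; exact hw
  · rw [← e2]; exact hu
  · intro z hz
    rw [List.length_take, min_eq_left hmlt.le]
    exact hm z hz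

/-- **Every word has many rearrangements.** -/
theorem count (n : ℕ) [DecidableEq σ] (F : List σ →₀ K) (h : Van n F) (w : List σ)
    (hw : F w ≠ 0) : 2 ^ n ≤ (F.support.filter fun u => cont u = cont w).card := by
  induction n generalizing F w with
  | zero =>
    rw [pow_zero, Nat.one_le_iff_ne_zero, Ne, card_eq_zero, ← Ne, ← nonempty_iff_ne_empty]
    exact ⟨w, mem_filter.2 ⟨Finsupp.mem_support_iff.2 hw, rfl⟩⟩
  | succ n ih =>
    set A := F.support.filter fun u => cont u = cont w with hA
    have hwA : w ∈ A := mem_filter.2 ⟨Finsupp.mem_support_iff.2 hw, rfl⟩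
    obtain ⟨w', hw'A, hne⟩ : ∃ w' ∈ A, w ≠ w' := by
      by_contra hcon
      push Not at hcon
      have h1 := sum_class F h (cont w)
      rw [← Finset.sum_filter, ← hA, Finset.sum_eq_single w] at h1
      · exact hw h1
      · intro b hb hbw
        exact absurd (hcon b hb).symm hbw
      · intro hcon2
        exact absurd hwA hcon2
    have hlen : ∀ u ∈ A, u.length = w.length := by
      intro u hu
      exact ((cont_eq_iff _ _).1 (mem_filter.1 hu).2).length_eq
    obtain ⟨p, x, y, v, v', hxy, h1, h2, h3⟩ := branch A w w' hwA hw'A hne hlen
    -- the words with a given prefix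
    have key : ∀ (z : σ) (t : List σ), p ++ z :: t ∈ A →
        2 ^ n ≤ (A.filter fun u => u.take (p.length + 1) = p ++ [z]).card := by
      intro z t ht
      have hG := van_par F h z (cont p)
      have hval : ∀ s : List σ, cont (p ++ z :: s) = cont w →
          par z (cont p) F s = F (p ++ z :: s) := by
        intro s hs
        rw [par_apply]
        by_cases hmem : p ++ z :: s ∈ F.support
        · rw [Finset.sum_eq_single (p ++ z :: s)]
          · rw [cut_append, if_pos rfl]
          · intro b hb hbne
            rw [if_neg]
            intro hcut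
            obtain ⟨u, hu1, hu2⟩ := cut_eq z _ b s hcut
            have hbA : b ∈ A := by
              refine mem_filter.2 ⟨hb, ?_⟩
              rw [← hs, hu1, cont_append, cont_append, hu2]
            have h4 := h3 b hbA
            have h5 : u.length = p.length := ((cont_eq_iff _ _).1 hu2).length_eq
            rw [hu1, ← h5, List.take_left] at h4
            rw [h4] at hu1
            exact hbne hu1
          · intro hcon
            exact absurd hmem hcon
        · rw [Finsupp.notMem_support_iff.1 hmem]
          refine Finset.sum_eq_zero fun b hb => ?_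
          rw [if_neg]
          intro hcut
          obtain ⟨u, hu1, hu2⟩ := cut_eq z _ b s hcut
          have hbA : b ∈ A := by
            refine mem_filter.2 ⟨hb, ?_⟩
            rw [← hs, hu1, cont_append, cont_append, hu2]
          have h4 := h3 b hbA
          have h5 : u.length = p.length := ((cont_eq_iff _ _).1 hu2).length_eq
          rw [hu1, ← h5, List.take_left] at h4
          rw [h4] at hu1
          exact hmem (hu1 ▸ hb)
      have ht2 := (mem_filter.1 ht).2
      have hGt : par z (cont p) F t ≠ 0 := by
        rw [hval t ht2]
        exact Finsupp.mem_support_iff.1 (mem_filter.1 ht).1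
      refine (ih _ hG t hGt).trans ?_
      refine Finset.card_le_card_of_injOn (fun s => p ++ z :: s) ?_ ?_
      · intro s hs
        rw [Finset.mem_coe, mem_filter] at hs
        have hs2 : cont (p ++ z :: s) = cont w := by
          rw [← ht2, cont_append, cont_append, cont_cons, cont_cons, hs.2]
        rw [Finset.mem_coe, mem_filter]
        refine ⟨mem_filter.2 ⟨?_, hs2⟩, ?_⟩
        · rw [Finsupp.mem_support_iff, ← hval s hs2]
          exact Finsupp.mem_support_iff.1 hs.1
        · have : p ++ z :: s = (p ++ [z]) ++ s := by simp
          have h6 : p.length + 1 = (p ++ [z]).length := by simp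
          show List.take (p.length + 1) (p ++ z :: s) = p ++ [z]
          rw [this, h6, List.take_left]
      · intro s _ s' _ he
        have he' : p ++ z :: s = p ++ z :: s' := he
        simpa using he'
    have k1 := key x v h1
    have k2 := key y v' h2
    have hdis : Disjoint (A.filter fun u => u.take (p.length + 1) = p ++ [x])
        (A.filter fun u => u.take (p.length + 1) = p ++ [y]) := by
      rw [Finset.disjoint_filter]
      intro u _ e1 e2
      rw [e1] at e2
      apply hxy
      simpa using e2
    calc 2 ^ (n + 1) = 2 ^ n + 2 ^ n := by ring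
      _ ≤ _ := add_le_add k1 k2
      _ = _ := (Finset.card_union_of_disjoint hdis).symm
      _ ≤ A.card := Finset.card_le_card (Finset.union_subset (filter_subset _ _)
        (filter_subset _ _))

end Pool.Agent.V11298.NCM
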